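import Pool.Agent.Lib_helper3.HTI.Final

/-!
# MP_a0015d_pr: tightness of the `p`-primary torsion of determinantal 2-hypertrees

`T_n` is the determinantal 2-dimensional hypertree on `n` vertices: `P(T_n = Y_S)` is proportional
to `|H_1(Y_S, ℤ)|^2` for the hypertrees `Y_S` (`prob`; the total weight is positive for every
`n ≥ 1`). For every `ε > 0` there is an exponent `L` such that for every prime `p` the `p`-primary
part `Γ_(n,p)` of `H_1(T_n, ℤ)` satisfies `P(|Γ_(n,p)| > p^L) < ε` for all large `n`. In
particular the sequence `(Γ_(n,p))_n` is tight for every prime `p`: the answer to Q1 is yes; the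
exponents are even tight uniformly in `p`.
-/

set_option autoImplicit false

namespace Pool.Agent.Results.MP_a0015d_pr.UniformTightness

open Pool.Agent.HTI

theorem result :
    (∀ n : ℕ, 0 < n → 0 < weight n (fun _ => True)) ∧
    ∀ ε : ℝ, 0 < ε → ∃ L : ℕ, ∀ p : ℕ, p.Prime → ∃ N : ℕ, ∀ n : ℕ, N ≤ n →
      prob n (fun S => p ^ L < Nat.card (AddCommGroup.primaryComponent (HOne ℤ S) p)) < ε :=
  ⟨fun _ hn => weight_pos hn, main⟩

end Pool.Agent.Results.MP_a0015d_pr.UniformTightness
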